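import Mathlib
import Pool.Agent.Lib.MP_3b7f8d_lc.FP.Plane

/-! The events attached to one basis, when the rows of a set `D` may have tiny right-hand sides. -/

namespace Pool.Agent.Lib.MP_3b7f8d_lc.FQ

open Finset MeasureTheory Pool.Agent.Lib.MP_3b7f8d_lc.FP
open scoped ENNReal

variable {n m : ℕ}

/-- The properties of the law of one row that the analysis uses. -/
structure RowOK (ν : Measure (Row n)) (U : ℝ) : Prop where
  slab : ∀ (h : Fin n → ℝ) (h₀ ε : ℝ), h ≠ 0 → 0 ≤ ε →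
    ν {ρ | |ρ.1 ⬝ᵥ h + ρ.2 * h₀| ≤ ε * ‖h‖} ≤ ENNReal.ofReal (U * ε)
  zero : ν {ρ | |ρ.2| ≤ 0} = 0
  dist : ∀ (k : ℕ) (V : Submodule ℝ (Fin n → ℝ)) (ε : ℝ), 0 ≤ ε → Module.finrank ℝ V + k ≤ n →
    ν {ρ | ∃ v ∈ V, ‖ρ.1 - v‖ ≤ ε} ≤ ENNReal.ofReal ((U * ε) ^ k)
  mom : ∫⁻ ρ, ENNReal.ofReal ‖ρ‖ ∂ν ≤ ENNReal.ofReal U

/-- The right-hand side is seldom small. -/
def Small (ν : Measure (Row n)) (U : ℝ) : Prop :=
  ∀ ε, 0 ≤ ε → ν {ρ | |ρ.2| ≤ ε} ≤ ENNReal.ofReal (U * ε)

/-- A moderate row. -/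
def Mod (D : Finset (Fin m)) (U : ℝ) (i : Fin m) (ρ : Row n) : Prop :=
  ‖ρ‖ ≤ U ∧ (i ∉ D → 1 / U ≤ |ρ.2|)

/-- The moderate rows `S`, restricted to `W`, have an approximate common kernel. -/
def Ker (D : Finset (Fin m)) (ε U : ℝ) (r : Fin m → Row n) (S : Finset (Fin m))
    (W : Finset (Fin n)) : Prop :=
  ∃ h : Option W → ℝ, ‖h‖ = 1 ∧ ∀ i ∈ S, Mod D U i (r i) ∧ |res W (r i) ⬝ᵥ h| ≤ ε

variable {D : Finset (Fin m)}

theorem rowOK {μ : Fin n → Measure ℝ} {β : Measure ℝ} [IsProbabilityMeasure β] {φ κ R U : ℝ}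
    (hμ : ∀ j, Nice (μ j) φ κ) (hφ : 0 ≤ φ) (hκ : 0 ≤ κ) (hR : 0 ≤ R)
    (h1 : β {b | |b| ≤ 0} = 0)
    (h2 : ∫⁻ b, ENNReal.ofReal |b| ∂β ≤ ENNReal.ofReal R) (hU1 : 2 * (n + 1) * φ ≤ U)
    (hU2 : n * κ + R ≤ U) : RowOK ((Measure.pi μ).prod β) U := by
  have := fun j => (hμ j).prob
  have hn : (0 : ℝ) ≤ n := Nat.cast_nonneg n
  refine ⟨fun h h₀ ε hh hε => ?_, ?_, fun k V ε hε hV => ?_, ?_⟩
  · rw [Measure.prod_apply_symm (isClosed_le (by fun_prop) (by fun_prop)).measurableSet]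
    refine (lintegral_mono (g := fun _ => ENNReal.ofReal (U * ε)) fun b => ?_).trans (by simp)
    refine le_trans (measure_mono fun a ha => ?_) ((pi_slab hμ hφ (norm_pos_iff.2 hh)
      (-(b * h₀) - ε * ‖h‖) (g := 2 * ε) (by positivity)).trans (ENNReal.ofReal_le_ofReal ?_))
    · have h3 := abs_le.1 (show |a ⬝ᵥ h + b * h₀| ≤ ε * ‖h‖ from ha)
      exact ⟨by linarith [h3.1], by linarith [h3.2]⟩
    · nlinarith [mul_nonneg (mul_nonneg hn hφ) hε]
  · refine Eq.trans ?_ h1
    exact measurePreserving_snd.measure_preimage (s := {b : ℝ | |b| ≤ 0})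
      (isClosed_le (by fun_prop) (by fun_prop)).measurableSet.nullMeasurableSet
  · refine le_trans (le_of_eq ?_) ((pi_dist hμ hφ hε k V hV).trans (ENNReal.ofReal_le_ofReal ?_))
    · exact measurePreserving_fst.measure_preimage (meas_dist V ε).nullMeasurableSet
    · refine pow_le_pow_left₀ (by positivity) ?_ _
      nlinarith [mul_nonneg hφ hε, mul_le_mul_of_nonneg_right hU1 hε]
  calc _ ≤ ∫⁻ ρ, (∑ j, ENNReal.ofReal |ρ.1 j|) + ENNReal.ofReal |ρ.2| ∂(Measure.pi μ).prod β := by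
        refine lintegral_mono fun ρ => ?_
        rw [← ENNReal.ofReal_sum_of_nonneg fun _ _ => abs_nonneg _,
          ← ENNReal.ofReal_add (by positivity) (abs_nonneg _)]
        refine ENNReal.ofReal_le_ofReal (norm_prod_le_iff.2 ⟨?_, ?_⟩)
        · refine le_trans ?_ (le_add_of_nonneg_right (abs_nonneg _))
          exact (pi_norm_le_iff_of_nonneg (by positivity)).2 fun j =>
            single_le_sum (f := fun j => |ρ.1 j|) (fun _ _ => abs_nonneg _) (mem_univ j)
        · exact le_add_of_nonneg_left (by positivity)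
    _ ≤ (∑ _j : Fin n, ENNReal.ofReal κ) + ENNReal.ofReal R := by
        rw [lintegral_add_right _ (by fun_prop), lintegral_finsetSum _ (by fun_prop)]
        gcongr with j
        · refine le_trans (le_of_eq ?_) (hμ j).mom
          exact ((measurePreserving_eval μ j).comp measurePreserving_fst).lintegral_comp
            (f := fun x => ENNReal.ofReal |x|) (by fun_prop)
        · refine le_trans (le_of_eq ?_) h2
          exact measurePreserving_snd.lintegral_comp (f := fun x => ENNReal.ofReal |x|)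
            (by fun_prop)
    _ ≤ _ := by
        rw [sum_const, card_univ, Fintype.card_fin, nsmul_eq_mul, ← ENNReal.ofReal_natCast,
          ← ENNReal.ofReal_mul hn, ← ENNReal.ofReal_add (by positivity) hR]
        exact ENNReal.ofReal_le_ofReal hU2

theorem exists_cor {r : Fin m → Row n} {B S S' : Finset (Fin m)} {W : Finset (Fin n)} {j : Fin m}
    {η τ δ ε U : ℝ} (hB : B.card = n) (hS' : S' ⊆ S) (hS : S ⊆ B.erase j) (hτ : 0 < τ)
    (hτη : τ ≤ η) (hε : 0 < ε) (hU : 0 ≤ U) (h1 : (n + 1) * (n * τ) / ε ≤ η)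
    (h2 : n * τ + n * ((n + 1) * (n * τ) / ε * U) ≤ δ) (hM : ∀ i ∈ S', Mod D U i (r i))
    (hK : ¬ Ker D ε U r S' W) : ∃ c, Cor η τ δ r B j S W c := by
  have hc : ∀ T ⊆ B.erase j, T.card ≤ n := fun T hT =>
    hB ▸ card_le_card (hT.trans (erase_subset _ _))
  set v : Row n := ∑ i ∈ B.erase j \ S', (τ / (1 + ‖r i‖)) • r i with hv
  have hv1 : ‖v‖ ≤ n * τ := by
    refine (norm_sum_le _ _).trans ((sum_le_card_nsmul _ _ τ fun i _ => ?_).trans ?_)
    · rw [norm_smul, Real.norm_of_nonneg (by positivity), div_mul_eq_mul_div,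
        div_le_iff₀ (by positivity)]
      nlinarith
    · rw [nsmul_eq_mul]
      gcongr
      exact hc _ sdiff_subset
  obtain ⟨d, hd, hd'⟩ := exists_comb (fun i => res W (r i)) S' hε (fun h hh => by
    by_contra h3
    push Not at h3
    exact hK ⟨h, hh, fun i hi => ⟨hM i hi, h3 i hi⟩⟩) (-res W v)
  have hd1 : ∀ i ∈ S', |d i| ≤ (n + 1) * (n * τ) / ε := fun i hi => (hd i hi).trans (by
    have h3 : W.card ≤ n := by simpa using card_le_univ W
    rw [norm_neg, Fintype.card_option, Fintype.card_coe]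
    push_cast
    gcongr
    exact (norm_res_le W v).trans hv1)
  set c : Fin m → ℝ := fun i => if i ∈ S' then d i else τ / (1 + ‖r i‖) with hcd
  set u : Row n := ∑ i ∈ B.erase j, c i • r i with hu
  have hu1 : u = v + ∑ i ∈ S', d i • r i := by
    rw [hu, ← sum_sdiff (hS'.trans hS)]
    congr 1
    · exact sum_congr rfl fun i hi => by rw [hcd]; simp only [if_neg (mem_sdiff.1 hi).2]
    · exact sum_congr rfl fun i hi => by rw [hcd]; simp only [if_pos hi]
  have e1 : ∑ i ∈ B.erase j, c i • (r i).1 = u.1 := by simp [hu, Prod.fst_sum]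
  have e2 : ∑ i ∈ B.erase j, c i * (r i).2 = u.2 := by simp [hu, Prod.snd_sum]
  refine ⟨c, fun i _ => ?_, fun i hi => ?_, ?_, ?_, fun l hl => ?_⟩
  · rw [hcd]
    simp only
    split_ifs with h
    · exact (hd1 i h).trans h1
    · rw [abs_of_pos (by positivity)]
      exact (div_le_self hτ.le (by linarith [norm_nonneg (r i)])).trans hτη
  · rw [hcd]
    simp only [if_neg fun h => (mem_sdiff.1 hi).2 (hS' h)]
    rw [div_mul_cancel₀ _ (by positivity)]
  · rw [e1, hu1]
    refine (norm_fst_le _).trans ((norm_add_le _ _).trans (le_trans (add_le_add hv1 ?_) h2))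
    refine (norm_sum_le _ _).trans ((sum_le_card_nsmul _ _ ((n + 1) * (n * τ) / ε * U)
      fun i hi => ?_).trans ?_)
    · rw [norm_smul]
      exact mul_le_mul (hd1 i hi) (hM i hi).1 (norm_nonneg _) (by positivity)
    · rw [nsmul_eq_mul]
      gcongr
      exact hc _ (hS'.trans hS)
  · have h3 := congrFun hd' none
    simp only [res, Finset.sum_apply, Pi.smul_apply, Option.elim_none, Pi.neg_apply] at h3
    rw [e2, hu1, Prod.snd_add, Prod.snd_sum (s := S')]
    simp only [Prod.smul_snd, h3, add_neg_cancel]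
  · have h3 := congrFun hd' (some ⟨l, hl⟩)
    simp only [res, Finset.sum_apply, Pi.smul_apply, Option.elim_some, Pi.neg_apply] at h3
    rw [e1, hu1, Prod.fst_add, Prod.fst_sum (s := S')]
    simp only [Pi.add_apply, Finset.sum_apply, Prod.smul_fst, Pi.smul_apply, h3, add_neg_cancel]

variable {ν : Fin m → Measure (Row n)} [∀ i, IsProbabilityMeasure (ν i)] {U : ℝ}

theorem near_sec {ε : ℝ} (hε : 0 ≤ ε) (p q : Fin n → ℝ) {B Z : Finset (Fin m)} {i : Fin m} {k : ℕ}
    (hB : B.card = n) (hi : i ∈ B) (hZ : Z ⊆ B.erase i) (hk : k + 1 ≤ Z.card ∨ k = 0)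
    {μ : Measure (Row n)} [IsProbabilityMeasure μ] (hμ : RowOK μ U) (r : Fin m → Row n) :
    μ {ρ | Near ε (Function.update r i ρ) p q B i Z} ≤ ENNReal.ofReal ((U * ε) ^ k) := by
  classical
  rcases hk with hk | rfl
  swap
  · simpa using prob_le_one
  set T : Finset (Fin n → ℝ) := insert p (insert q ((B.erase i \ Z).image fun l => (r l).1))
  refine le_trans (measure_mono ?_) (hμ.dist k (Submodule.span ℝ T) ε hε ?_)
  · rintro ρ ⟨c, α, β, h⟩
    rw [Function.update_self] at h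
    refine ⟨_, Submodule.add_mem _ (Submodule.add_mem _ (Submodule.smul_mem _ _ ?_)
      (Submodule.smul_mem _ _ ?_)) (Submodule.sum_mem _ fun l hl => Submodule.smul_mem _ _ ?_), h⟩
    · exact Submodule.subset_span (mem_coe.2 (mem_insert_self _ _))
    · exact Submodule.subset_span (mem_coe.2 (mem_insert_of_mem (mem_insert_self _ _)))
    · rw [Function.update_of_ne (ne_of_mem_erase (mem_sdiff.1 hl).1)]
      exact Submodule.subset_span (mem_coe.2 (mem_insert_of_mem (mem_insert_of_mem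
        (mem_image_of_mem _ hl))))
  · have h2 := finrank_span_finset_le_card (R := ℝ) T
    have h3 : T.card ≤ _ + 1 := card_insert_le _ _
    have h4 := card_insert_le q ((B.erase i \ Z).image fun l => (r l).1)
    have h5 := card_image_le (s := B.erase i \ Z) (f := fun l => (r l).1)
    have h6 := card_erase_add_one hi
    have h7 := card_sdiff_add_card_eq_card hZ
    rw [Set.finrank] at h2
    omega

theorem prob_near (hν : ∀ i, RowOK (ν i) U) {ε : ℝ} (hε : 0 ≤ ε) (p q : Fin n → ℝ)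
    {B Z : Finset (Fin m)} {i : Fin m} {k : ℕ}
    (hB : B.card = n) (hi : i ∈ B) (hZ : Z ⊆ B.erase i) (hk : Z.card = k + 1) :
    Measure.pi ν {r | Near ε r p q B i Z} ≤ ENNReal.ofReal ((U * ε) ^ k) := by
  have key := pi_le_of_update ν i (meas_near ε p q B i Z) MeasurableSet.univ
    (b := ENNReal.ofReal ((U * ε) ^ k)) fun r => ?_
  · simpa using key
  simp only [Set.mem_univ, Set.ofPred_true, measure_univ, mul_one, Set.mem_ofPred_eq]
  exact near_sec hε p q hB hi hZ (Or.inl hk.ge) (hν i) r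

theorem prob_ker (hν : ∀ i, RowOK (ν i) U) (hU : 1 ≤ U) (hn : (n : ℝ) + 1 ≤ U) {N : ℕ} (hN : 4 * U ^ 3 < N)
    (S : Finset (Fin m)) (W : Finset (Fin n)) {i₀ : Fin m} (hi₀ : i₀ ∈ S) (hD : i₀ ∉ D) :
    Measure.pi ν {r | Ker D (U ^ 2 / N) U r S W} ≤
      (2 * N + 1) ^ (W.card + 1) * ENNReal.ofReal (4 * U ^ 6 / N) ^ S.card := by
  classical
  have hN0 : (0 : ℝ) < N := lt_trans (by positivity) hN
  have hn0 : (0 : ℝ) ≤ n := Nat.cast_nonneg n
  set F := (Fintype.piFinset fun _ : Option W => Finset.Icc (-N : ℤ) N).filter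
    fun z => ∃ o, |z o| = (N : ℤ) with hF
  set A : (Option W → ℤ) → Fin m → Set (Row n) := fun z i =>
    {ρ | Mod D U i ρ ∧ |res W ρ ⬝ᵥ fun o => (z o : ℝ) / N| ≤ 2 * U ^ 2 / N} with hA
  have h1 : {r : Fin m → Row n | Ker D (U ^ 2 / N) U r S W} ⊆
      ⋃ z ∈ F, {r | ∀ i ∈ S, r i ∈ A z i} := by
    rintro r ⟨h, hh, hr⟩
    have h2 : ∀ o, |h o| ≤ 1 := fun o => (norm_le_pi_norm h o).trans hh.le
    refine Set.mem_iUnion₂.2 ⟨fun o => ⌊N * h o⌋, mem_filter.2 ⟨Fintype.mem_piFinset.2 fun o =>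
      mem_Icc.2 ⟨Int.le_floor.2 ?_, Int.floor_le_iff.2 ?_⟩, ?_⟩, fun i hi => ⟨(hr i hi).1, ?_⟩⟩
    · push_cast
      nlinarith [(abs_le.1 (h2 o)).1]
    · push_cast
      nlinarith [(abs_le.1 (h2 o)).2]
    · obtain ⟨o, ho⟩ : ∃ o, 1 ≤ |h o| := by
        by_contra h3
        push Not at h3
        exact ((pi_norm_lt_iff one_pos).2 h3).ne hh
      refine ⟨o, ?_⟩
      rcases (abs_eq zero_le_one).1 (le_antisymm (h2 o) ho) with h3 | h3
      · simp [h3]
      · have h4 : ⌊(N : ℝ) * h o⌋ = -N := by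
          rw [h3, Int.floor_eq_iff]
          push_cast
          constructor <;> linarith
        simp [h4]
    · have h3 : |res W (r i) ⬝ᵥ (h - fun o => (⌊N * h o⌋ : ℝ) / N)| ≤ U ^ 2 / N := by
        calc _ ≤ ∑ o, |res W (r i) o * (h o - (⌊N * h o⌋ : ℝ) / N)| := abs_sum_le_sum_abs _ _
          _ ≤ ∑ _o : Option W, U * (1 / N) := sum_le_sum fun o _ => by
            rw [abs_mul]
            refine mul_le_mul ((norm_le_pi_norm _ o).trans ((norm_res_le _ _).trans
              (hr i hi).1.1)) ?_ (abs_nonneg _) (by linarith)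
            have h4 : h o - (⌊N * h o⌋ : ℝ) / N = Int.fract (N * h o) / N := by
              rw [Int.fract]
              field_simp
            rw [h4, abs_of_nonneg (div_nonneg (Int.fract_nonneg _) hN0.le)]
            gcongr
            exact (Int.fract_lt_one _).le
          _ ≤ U * (U * (1 / N)) := by
            have h4 : (W.card : ℝ) ≤ n := by exact_mod_cast (by simpa using card_le_univ W)
            rw [sum_const, card_univ, Fintype.card_option, Fintype.card_coe, nsmul_eq_mul]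
            push_cast
            gcongr
            linarith
          _ = _ := by ring
      rw [dotProduct_sub] at h3
      have h4 := abs_le.1 (hr i hi).2
      rw [mul_div_assoc]
      exact abs_le.2 ⟨by linarith [(abs_le.1 h3).2, h4.1], by linarith [(abs_le.1 h3).1, h4.2]⟩
  have h2 : ∀ z ∈ F, Measure.pi ν {r | ∀ i ∈ S, r i ∈ A z i} ≤
      ENNReal.ofReal (4 * U ^ 6 / N) ^ S.card := by
    intro z hz
    obtain ⟨-, o, ho⟩ := mem_filter.1 hz
    have ho' : |(z o : ℝ) / N| = 1 := by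
      rw [abs_div, abs_of_pos hN0, div_eq_one_iff_eq hN0.ne']
      exact_mod_cast ho
    set h : Fin n → ℝ := fun l => if hl : l ∈ W then (z (some ⟨l, hl⟩) : ℝ) / N else 0 with hh
    have h3 : ∀ ρ : Row n, (res W ρ ⬝ᵥ fun o => (z o : ℝ) / N) =
        ρ.1 ⬝ᵥ h + ρ.2 * (z none / N) := by
      intro ρ
      rw [dotProduct, Fintype.sum_option, add_comm, dotProduct,
        ← sum_subset (subset_univ W) fun l _ hl => by simp [hh, hl], ← sum_coe_sort W]
      simp [res, hh]
    by_cases h4 : 1 / (2 * U ^ 3) ≤ ‖h‖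
    · refine pi_forall_le ν S (A z) fun i _ => ?_
      refine le_trans (measure_mono fun ρ hρ => ?_) (((hν i).slab h (z none / N) (4 * U ^ 5 / N)
        (norm_pos_iff.1 (lt_of_lt_of_le (by positivity) h4)) (by positivity)).trans
        (le_of_eq (by congr 1; ring)))
      refine (h3 ρ ▸ hρ.2).trans ?_
      calc _ = 4 * U ^ 5 / N * (1 / (2 * U ^ 3)) := by field_simp; ring
        _ ≤ _ := by gcongr
    · refine le_of_eq_of_le (measure_mono_null (fun r hr => ?_) measure_empty) zero_le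
      have hρ := hr i₀ hi₀
      generalize r i₀ = ρ at hρ
      have h5 : 1 / (2 * U ^ 3) ≤ 1 := by
        rw [div_le_one (by positivity)]
        nlinarith [one_le_pow₀ hU (n := 3)]
      rcases o with _ | l
      · have h6 : |h ⬝ᵥ (U⁻¹ • ρ.1)| ≤ U * (1 / (2 * U ^ 3)) := by
          rw [dotProduct_comm]
          refine (abs_dot_le ?_).trans (mul_le_mul (by linarith) (not_le.1 h4).le (norm_nonneg _)
            (by linarith))
          rw [norm_smul, norm_inv, Real.norm_of_nonneg (by linarith),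
            inv_mul_le_iff₀ (by linarith), mul_one]
          exact (norm_fst_le ρ).trans hρ.1.1
        rw [dotProduct_smul, smul_eq_mul, abs_mul, abs_of_pos (by positivity),
          inv_mul_le_iff₀ (by linarith), dotProduct_comm] at h6
        have h7 : |ρ.2 * (z none / N)| ≤ 2 * U ^ 2 / N + U * (U * (1 / (2 * U ^ 3))) := by
          have h8 := abs_sub (ρ.1 ⬝ᵥ h + ρ.2 * (z none / N)) (ρ.1 ⬝ᵥ h)
          rw [add_sub_cancel_left] at h8
          linarith [h3 ρ ▸ hρ.2]
        rw [abs_mul, ho', mul_one] at h7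
        have h8 : 2 * U ^ 2 / N < 1 / (2 * U) := by
          rw [div_lt_div_iff₀ hN0 (by positivity)]
          linarith
        have h9 : U * (U * (1 / (2 * U ^ 3))) = 1 / (2 * U) := by field_simp
        have h10 : 1 / U = 1 / (2 * U) + 1 / (2 * U) := by field_simp; ring
        linarith [hρ.1.2 hD]
      · have h6 := norm_le_pi_norm h l
        simp only [hh, dif_pos l.2, Real.norm_eq_abs, ho'] at h6
        exact h4 (h5.trans h6)
  refine (measure_mono h1).trans ((measure_biUnion_finset_le _ _).trans ((sum_le_card_nsmul _ _ _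
    h2).trans ?_))
  rw [nsmul_eq_mul]
  gcongr
  have h3 := card_filter_le (Fintype.piFinset fun _ : Option W => Finset.Icc (-N : ℤ) N)
    fun z => ∃ o, |z o| = (N : ℤ)
  rw [Fintype.card_piFinset, prod_const, Int.card_Icc, card_univ, Fintype.card_option,
    Fintype.card_coe, show ((N : ℤ) + 1 - -N).toNat = 2 * N + 1 by omega] at h3
  exact_mod_cast h3

theorem prob_bad (hν : ∀ i, RowOK (ν i) U) {p q : Fin n → ℝ} {S B : Finset (Fin m)} {k : Fin m} (hk : k ∉ B) (hS : k ∈ S)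
    {g : ℝ} (hg : 0 ≤ g) : Measure.pi ν {r | Bad g r p q S B k} ≤
      ENNReal.ofReal (U * g) * Measure.pi ν {r | On 0 r p q (S.erase k) B} := by
  refine pi_le_of_update ν k (meas_bad g p q S B k) (meas_on continuous_const p q _ B) fun r => ?_
  rcases Set.eq_empty_or_nonempty {ρ | Function.update r k ρ ∈ {r | Bad g r p q S B k}} with
    h | ⟨ρ₀, ⟨x, hx, -⟩, hd⟩
  · rw [h]
    simp
  have hx' := isBFS_update_erase hk |>.1 ((isBFS_erase hk hS).1 hx).1
  rw [Set.eq_univ_of_forall (s := {ρ | Function.update r k ρ ∈ {r | On 0 r p q (S.erase k) B}})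
    fun ρ => ⟨⟨x, (isBFS_update_erase hk).2 hx'⟩, (seg_update hk).2 ((seg_update hk).1 hd)⟩,
    measure_univ, mul_one]
  have h1 : {ρ | Function.update r k ρ ∈ {r | Bad g r p q S B k}} ⊆
      {ρ | |ρ.1 ⬝ᵥ (-x) + ρ.2 * 1| ≤ g * ‖-x‖} := by
    rintro ρ ⟨⟨x', h1, h2⟩, -⟩
    have h3 := (isBFS_erase hk hS).1 h1
    obtain rfl := hx'.unique ((isBFS_update_erase hk).1 h3.1)
    simp only [Function.update_self] at h2 h3
    rw [Set.mem_ofPred_eq, dotProduct_neg, norm_neg, abs_of_nonneg (by linarith [h3.2])]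
    linarith
  refine (measure_mono h1).trans ?_
  rcases eq_or_ne x 0 with rfl | h0
  · refine le_trans (le_of_eq (Eq.trans ?_ (hν k).zero)) zero_le
    simp
  · exact (hν k).slab _ _ _ (neg_ne_zero.2 h0) hg

theorem prob_flat {B : Finset (Fin m)} (hB : B.card = n) (i : Fin m) (hν : RowOK (ν i) U) {δ : ℝ}
    (hδ : 0 ≤ δ) :
    Measure.pi ν {r | Flat δ r B i} ≤ ENNReal.ofReal (U * δ) := by
  have key := pi_le_of_update ν i (meas_flat δ B i)
    MeasurableSet.univ (b := ENNReal.ofReal (U * δ)) fun r => ?_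
  · simpa using key
  simp only [Set.mem_univ, Set.ofPred_true, measure_univ, mul_one, Set.mem_ofPred_eq]
  rcases Set.eq_empty_or_nonempty {ρ | Flat δ (Function.update r i ρ) B i} with
    h | ⟨ρ₀, hl, h₀, hn, ho, -⟩
  · rw [h]
    simp
  refine le_trans (measure_mono ?_) (hν.slab h₀ 0 δ (norm_pos_iff.1 (hn ▸ one_pos)) hδ)
  rintro ρ ⟨-, h, hn', ho', hδ'⟩
  have e : ∀ j ∈ B.erase i, ∀ ρ', Function.update r i ρ' j = r j :=
    fun j hj ρ' => update_rows (notMem_erase _ B) j hj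
  have h1 : (ρ₀.1 ⬝ᵥ h) • h₀ = (ρ₀.1 ⬝ᵥ h₀) • h := by
    refine eq_of_dot hB hl fun j hj => ?_
    rw [dotProduct_smul, dotProduct_smul]
    by_cases hji : j = i
    · rw [hji, Function.update_self, smul_eq_mul, smul_eq_mul, mul_comm]
    · have hj' := mem_erase.2 ⟨hji, hj⟩
      have h2 := ho' j hj'
      rw [e j hj', ← e j hj' ρ₀] at h2
      rw [ho j hj', h2, smul_zero, smul_zero]
  have h2 : ρ₀.1 ⬝ᵥ h₀ ≠ 0 := by
    intro h0
    have : h₀ = 0 := eq_zero_of_dot hB hl fun j hj => by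
      by_cases hji : j = i
      · rw [hji, Function.update_self, h0]
      · exact ho j (mem_erase.2 ⟨hji, hj⟩)
    rw [this, norm_zero] at hn
    exact zero_ne_one hn
  have h3 := congrArg norm h1
  rw [norm_smul, norm_smul, hn, hn', mul_one, mul_one, Real.norm_eq_abs, Real.norm_eq_abs] at h3
  have h4 := congrArg (fun v => |ρ.1 ⬝ᵥ v|) h1
  simp only [dotProduct_smul, smul_eq_mul, abs_mul, h3] at h4
  rw [Function.update_self] at hδ'
  rw [Set.mem_ofPred_eq, mul_zero, add_zero, hn, mul_one]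
  rwa [mul_left_cancel₀ (abs_ne_zero.2 h2) h4]

theorem lintegral_al (hν : ∀ i, ∫⁻ ρ, ENNReal.ofReal ‖ρ‖ ∂ν i ≤ ENNReal.ofReal U) (hU : 1 ≤ U) (hm : (m : ℝ) ≤ U) :
    ∫⁻ r, ENNReal.ofReal (al r) ∂Measure.pi ν ≤ ENNReal.ofReal (2 * U ^ 2) := by
  have h1 : ∀ r : Fin m → Row n, ENNReal.ofReal (al r) = 1 + ∑ i, ENNReal.ofReal ‖r i‖ := by
    intro r
    rw [al, ENNReal.ofReal_add zero_le_one (by positivity), ENNReal.ofReal_one,
      ENNReal.ofReal_sum_of_nonneg fun i _ => norm_nonneg _]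
  simp only [h1]
  rw [lintegral_add_left measurable_const, lintegral_finsetSum _ (by fun_prop)]
  calc _ ≤ 1 + ∑ _i : Fin m, ENNReal.ofReal U := by
        gcongr with i
        · simp
        · exact ((measurePreserving_eval ν i).lintegral_comp
            (f := fun ρ => ENNReal.ofReal ‖ρ‖) (by fun_prop)).le.trans (hν i)
    _ = ENNReal.ofReal (1 + m * U) := by
        rw [ENNReal.ofReal_add zero_le_one (by positivity), ENNReal.ofReal_mul (by positivity),
          ENNReal.ofReal_natCast]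
        simp
    _ ≤ _ := ENNReal.ofReal_le_ofReal (by nlinarith)

end Pool.Agent.Lib.MP_3b7f8d_lc.FQ
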