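import Mathlib
import Pool.Agent.Lib.MP_3b7f8d_lc.FQ.Step
import Pool.Agent.Lib.MP_3b7f8d_lc.FQ.Sum

/-! The expected number of bases on a segment of objectives, with an exempt set of rows. -/

namespace Pool.Agent.Lib.MP_3b7f8d_lc.FQ

open Finset MeasureTheory Pool.Agent.Lib.MP_3b7f8d_lc.FP
open scoped ENNReal

variable {n m : ℕ} {D : Finset (Fin m)}

theorem typical {r : Fin m → Row n} {B Γ : Finset (Fin m)} {p q : Fin n → ℝ} {θ U : ℝ} {b k : ℕ}
    (hp : p ⬝ᵥ p = 1) (hpq : q ⬝ᵥ p = 0) (hp1 : ‖p‖ ≤ 1) (hθ : 0 < θ) (hθ1 : θ ≤ 1) (hU : 0 ≤ U)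
    (hB : B.card = n) (hseg : Seg 0 r p q B) (hΓ : Γ ⊆ B) (hb : n ≤ Γ.card + b)
    (hk : k + 2 * b + 2 ≤ n) (hk0 : 0 < k) (hM : ∀ i ∈ Γ, ‖r i‖ ≤ U)
    (hN : ∀ i ∈ B, ∀ Z ⊆ B.erase i, Z.card = b + 2 → ¬ Near (n * (θ * U)) r p q B i Z) :
    (∃ j ∈ Γ, ∃ s < n, ∃ S ⊆ B.erase j, ∃ S' ⊆ S ∩ Γ, S'.card = k ∧ (∃ i ∈ S', i ∉ D) ∧
      Pat 0 θ ((s + 1 / 2) * (θ / n)) (2 * (θ / (4 * n))) r p q B j S) ∨
      ∃ i ∈ B, Near (n * (θ * U)) r p q B i ((Γ \ D).erase i) := by
  obtain ⟨t, y, ht, h0, hw⟩ := hseg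
  obtain ⟨i₀, hi₀, hmax⟩ := exists_max_image B y (card_pos.1 (by omega))
  have hY : 0 < y i₀ := by
    have h1 := one_le_mult hp hpq hp1 (h0 i₀ hi₀) (fun i hi => ⟨h0 i hi, hmax i hi⟩) hw
    refine (h0 i₀ hi₀).lt_of_ne fun h => ?_
    rw [← h] at h1
    norm_num at h1
  set L := Γ.filter fun i => θ * y i₀ ≤ y i with hL
  set M := (Γ.erase i₀).filter fun i => y i < θ * y i₀ with hM'
  have hZ' : ∀ Z ⊆ M, Z ⊆ B.erase i₀ := fun Z hZ =>
    hZ.trans ((filter_subset _ _).trans (erase_subset_erase _ hΓ))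
  have hnear : ∀ Z ⊆ M, Near (n * (θ * U)) r p q B i₀ Z := by
    intro Z hZ
    have hZ' := hZ' Z hZ
    refine ⟨fun k => -(y i₀)⁻¹ * y k, (y i₀)⁻¹, (y i₀)⁻¹ * t, ?_⟩
    have h1 : (r i₀).1 - ((y i₀)⁻¹ • p + ((y i₀)⁻¹ * t) • q +
        ∑ k ∈ B.erase i₀ \ Z, (-(y i₀)⁻¹ * y k) • (r k).1) =
        -(y i₀)⁻¹ • ∑ k ∈ Z, y k • (r k).1 := by
      simp only [mul_smul]
      rw [← smul_sum, ← smul_add, hw, ← add_sum_erase _ _ hi₀, ← sum_sdiff hZ', smul_add,
        inv_smul_smul₀ hY.ne']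
      module
    rw [h1, norm_smul, norm_neg, Real.norm_of_nonneg (by positivity), inv_mul_le_iff₀ hY]
    refine (norm_sum_le _ _).trans ((sum_le_card_nsmul _ _ (θ * y i₀ * U) fun i hi => ?_).trans ?_)
    · obtain ⟨h2, h3⟩ := mem_filter.1 (hZ hi)
      rw [norm_smul, Real.norm_of_nonneg (h0 i (mem_of_mem_erase (hZ' hi)))]
      exact mul_le_mul h3.le ((norm_fst_le _).trans (hM i (mem_of_mem_erase h2))) (norm_nonneg _)
        (by positivity)
    · have h2 : (Z.card : ℝ) ≤ n := by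
        exact_mod_cast hB ▸ card_le_card (hZ'.trans (erase_subset _ _))
      rw [nsmul_eq_mul]
      calc _ ≤ n * (θ * y i₀ * U) := by gcongr
        _ = _ := by ring
  have hM1 : M.card ≤ b + 1 := by
    by_contra h
    obtain ⟨Z, hZ, hZc⟩ := exists_subset_card_eq (s := M) (n := b + 2) (by omega)
    exact hN i₀ hi₀ Z (hZ' Z hZ) hZc (hnear Z hZ)
  have hL0 : Γ ⊆ L ∪ M := by
    intro i hi
    by_cases h : θ * y i₀ ≤ y i
    · exact mem_union_left _ (mem_filter.2 ⟨hi, h⟩)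
    · refine mem_union_right _ (mem_filter.2 ⟨mem_erase.2 ⟨?_, hi⟩, not_le.1 h⟩)
      rintro rfl
      exact h (by nlinarith)
  have hL1 : Γ.card ≤ L.card + M.card := (card_le_card hL0).trans (card_union_le _ _)
  by_cases hD : ∃ i ∈ L, i ∉ D
  swap
  · refine Or.inr ⟨i₀, hi₀, hnear _ fun i hi => ?_⟩
    obtain ⟨h1, h2⟩ := mem_sdiff.1 (mem_of_mem_erase hi)
    exact (mem_union.1 (hL0 h1)).resolve_left fun h => hD ⟨i, h, h2⟩
  left
  obtain ⟨i₁, hi₁, hD⟩ := hD
  obtain ⟨j, hj'⟩ : (L.erase i₁).Nonempty :=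
    card_pos.1 (by have := card_erase_add_one hi₁; omega)
  obtain ⟨hj0, hj⟩ := mem_erase.1 hj'
  obtain ⟨S', hS0, hS', hk'⟩ := exists_subsuperset_card_eq (s := {i₁}) (t := L.erase j) (n := k)
    (singleton_subset_iff.2 (mem_erase.2 ⟨hj0.symm, hi₁⟩)) (by rwa [card_singleton])
    (by have := card_erase_add_one hj; omega)
  obtain ⟨hjΓ, hj1⟩ := mem_filter.1 hj
  have hyj : 0 < y j := lt_of_lt_of_le (by positivity) hj1
  have hn : (0 : ℝ) < n := by exact_mod_cast (by omega : 0 < n)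
  obtain ⟨s, hs, hwin⟩ := exists_window (n := n) (B.erase j)
    (by have := card_erase_add_one (hΓ hjΓ); omega) (fun i => y i / y j) (a := θ / n)
    (by positivity)
  have e1 : (s + 1 / 2) * (θ / n) + 2 * (θ / (4 * n)) = (s + 1) * (θ / n) := by ring
  have e2 : (s + 1 / 2) * (θ / n) - 2 * (θ / (4 * n)) = s * (θ / n) := by ring
  refine ⟨j, hjΓ, s, hs, (B.erase j).filter fun i => (s + 1) * (θ / n) * y j ≤ y i,
    filter_subset _ _, S', fun i hi => ?_, hk', ⟨i₁, singleton_subset_iff.1 hS0, hD⟩, t, y, ht, h0, hw, fun i hi => ?_,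
    fun i hi => ?_, fun i hi => ?_⟩
  · obtain ⟨h1, h2⟩ := mem_erase.1 (hS' hi)
    obtain ⟨h2, h3⟩ := mem_filter.1 h2
    refine mem_inter.2 ⟨mem_filter.2 ⟨mem_erase.2 ⟨h1, hΓ h2⟩, le_trans ?_ h3⟩, h2⟩
    have h4 : (s + 1 : ℝ) ≤ n := by exact_mod_cast hs
    have h5 : (s + 1) * (θ / n) ≤ θ := by
      rw [← mul_div_assoc, div_le_iff₀ hn]
      nlinarith
    exact mul_le_mul h5 (hmax j (hΓ hjΓ)) hyj.le hθ.le
  · exact le_trans (by gcongr; exact hmax i hi) hj1
  · rw [e1]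
    exact (mem_filter.1 hi).2
  · obtain ⟨h1, h2⟩ := mem_sdiff.1 hi
    rw [e2]
    rcases hwin i h1 with h | h
    · exact ((div_lt_iff₀ hyj).1 h).le
    · exact absurd (mem_filter.2 ⟨h1, (le_div_iff₀ hyj).1 h⟩) h2

variable {X : Type} [MeasurableSpace X] {row : X → Row n} {lab : X → Finset (Fin n)}
  {G : Fin m → Set X} {C : Fin m → Measure X → Prop} {U : ℝ} {p q : Fin n → ℝ}

/-- The atypical event of a basis. -/
def atyp (D : Finset (Fin m)) (row : X → Row n) (G : Fin m → Set X) (U : ℝ) (p q : Fin n → ℝ) (B : Finset (Fin m)) :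
    Set (Fin m → X) :=
  (⋃ J ∈ B.powersetCard (n / 8 + 1), {ω | ∀ i ∈ J, ω i ∈ (G i)ᶜ}) ∪ (fun ω i => row (ω i)) ⁻¹'
    ((⋃ i ∈ B, ⋃ Z ∈ (B.erase i).powersetCard (n / 8 + 2),
      {r | Near (n * (1 / U ^ 11 * U)) r p q B i Z}) ∪
    ⋃ S ∈ (B.powersetCard ((n / 4 + 2) * 2)).filter fun S => ∃ i ∈ S, i ∉ D,
      ⋃ W ∈ univ.filter fun W : Finset (Fin n) =>
      W.card ≤ n / 4 + 1, {r | Ker D (U ^ 2 / (⌈U ^ 18⌉₊ : ℕ)) U r S W})

/-- The second atypical event: all good rows outside `D` have small multipliers. -/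
def atyp2 (D : Finset (Fin m)) (row : X → Row n) (G : Fin m → Set X) (U : ℝ) (p q : Fin n → ℝ)
    (B : Finset (Fin m)) : Set (Fin m → X) :=
  ⋃ i ∈ B, ⋃ Z ∈ ((B \ D).erase i).powerset,
    {ω | Near (n * (1 / U ^ 11 * U)) (fun i => row (ω i)) p q B i Z ∧
      ∀ l ∈ (B \ D).erase i \ Z, ω l ∈ (G l)ᶜ}

theorem Fam.rows_le (h : Fam D row lab G C U) {ν : Fin m → Measure X} (hν : ∀ i, C i (ν i))
    (E : Set (Fin m → Row n)) : Measure.pi ν ((fun ω i => row (ω i)) ⁻¹' E) ≤
      Measure.pi (fun i => (ν i).map row) E := by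
  have := fun i => h.prob i _ (hν i)
  rw [← Measure.pi_map_pi fun i => h.mrow.aemeasurable]
  exact Measure.le_map_apply (meas_rows h.mrow).aemeasurable E

theorem Fam.prob_atyp (h : Fam D row lab G C U) {ν : Fin m → Measure X} (hν : ∀ i, C i (ν i))
    (hn : (n : ℝ) + 1 ≤ U) (hm : 8 * (m : ℝ) ≤ U) (hn0 : 0 < n) {B : Finset (Fin m)}
    (hB : B.card = n) : Measure.pi ν (atyp D row G U p q B) ≤ 3 * ENNReal.ofReal ((1 / m) ^ n) := by
  have := fun i => h.prob i _ (hν i)
  have := fun i => Measure.isProbabilityMeasure_map (μ := ν i) h.mrow.aemeasurable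
  have hok := fun i => h.ok i _ (hν i)
  have hm1 : 1 ≤ m := by
    have := card_le_univ B
    rw [Fintype.card_fin] at this
    omega
  have hm2 : (1 : ℝ) ≤ m := by exact_mod_cast hm1
  have hU : 8 ≤ U := by linarith
  have hm3 : 1 / U ≤ 1 / (4 * m) := by gcongr; linarith
  refine (measure_union_le _ _).trans ((add_le_add_right ((h.rows_le hν _).trans
    (measure_union_le _ _)) _).trans ?_)
  rw [show ∀ a : ℝ≥0∞, 3 * a = a + (a + a) from fun a => by ring]
  refine add_le_add ?_ (add_le_add ?_ ?_)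
  · refine (biUnion_le _ _ (x := ((1 / (2 * m)) ^ 8) ^ (n / 8 + 1)) (by positivity)
      (card_pc hB.le _) fun J hJ => ?_).trans (ENNReal.ofReal_le_ofReal
      (pow_aux one_le_two hm1 (by positivity) le_rfl (by omega)))
    rw [ENNReal.ofReal_pow (by positivity), ← (mem_powersetCard.1 hJ).2]
    exact pi_forall_le ν J _ fun i _ => h.bad i _ (hν i)
  · refine (biUnion_le _ _ (c := 2 ^ n) (by positivity) ?_ fun i hi =>
      biUnion_le _ _ (by positivity) (card_pc (n := n) (card_erase_le.trans hB.le) _)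
        fun Z hZ => prob_near hok (k := n / 8 + 1) (ε := n * (1 / U ^ 11 * U)) (by positivity) p q hB hi
          (mem_powersetCard.1 hZ).1 (mem_powersetCard.1 hZ).2).trans (ENNReal.ofReal_le_ofReal ?_)
    · rw [hB]
      exact_mod_cast Nat.lt_two_pow_self.le
    · rw [← mul_assoc, ← mul_pow, show (2 : ℝ) * 2 = 4 by norm_num]
      refine pow_aux (e := 8) (by norm_num) hm1 (by positivity) ?_ (by omega)
      calc _ ≤ U * (U * (1 / U ^ 11 * U)) := by gcongr; linarith
        _ = (1 / U) ^ 8 := by field_simp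
        _ ≤ _ := by gcongr
  · set N := ⌈U ^ 18⌉₊ with hN
    have hN1 : U ^ 18 ≤ N := Nat.le_ceil _
    have hN2 : (1 : ℝ) ≤ N := (one_le_pow₀ (by linarith)).trans hN1
    refine (biUnion_le _ _ (by positivity) (le_trans (Nat.cast_le.2 (card_filter_le _ _))
      (card_pc hB.le _)) fun S hS =>
      biUnion_le _ _ (c := 2 ^ n) (x := (48 * U ^ 12 / N) ^ (n / 4 + 2)) (by positivity) ?_
        fun W hW => (prob_ker hok (by linarith) hn ?_ S W (mem_filter.1 hS).2.choose_spec.1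
          (mem_filter.1 hS).2.choose_spec.2).trans ?_).trans
        (ENNReal.ofReal_le_ofReal ?_)
    · have h1 := card_le_univ (univ.filter fun W : Finset (Fin n) => W.card ≤ n / 4 + 1)
      rw [Fintype.card_finset, Fintype.card_fin] at h1
      exact_mod_cast h1
    · refine lt_of_lt_of_le ?_ hN1
      calc 4 * U ^ 3 < U * U ^ 3 := by gcongr; linarith
        _ = U ^ 4 := by ring
        _ ≤ _ := pow_le_pow_right₀ (by linarith) (by norm_num)
    · rw [(mem_powersetCard.1 (mem_filter.1 hS).1).2, mul_comm (n / 4 + 2), pow_mul]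
      calc _ ≤ ENNReal.ofReal (3 * N) ^ (n / 4 + 2) *
            (ENNReal.ofReal (4 * U ^ 6 / N) ^ 2) ^ (n / 4 + 2) := by
            refine mul_le_mul_left ((pow_le_pow_left' ?_ _).trans (pow_le_pow_right₀ ?_ ?_)) _
            · rw [show (2 * N + 1 : ℝ≥0∞) = ENNReal.ofReal (2 * N + 1 : ℕ) by
                rw [ENNReal.ofReal_natCast]; push_cast; rfl]
              refine ENNReal.ofReal_le_ofReal ?_
              push_cast
              linarith
            · exact ENNReal.one_le_ofReal.2 (by linarith)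
            · have := (mem_filter.1 hW).2
              omega
        _ = _ := by
            rw [← mul_pow, ← ENNReal.ofReal_pow (by positivity), ← ENNReal.ofReal_mul
              (by positivity), ← ENNReal.ofReal_pow (by positivity)]
            congr 2
            field_simp
            ring
    · rw [← mul_assoc, ← mul_pow, show (2 : ℝ) * 2 = 4 by norm_num]
      refine pow_aux (e := 4) (by norm_num) hm1 (by positivity) ?_ (by omega)
      calc _ ≤ U ^ 2 * U ^ 12 / U ^ 18 := by gcongr; nlinarith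
        _ = (1 / U) ^ 4 := by field_simp
        _ ≤ _ := by gcongr

theorem Fam.prob_atyp2 (h : Fam D row lab G C U) {ν : Fin m → Measure X} (hν : ∀ i, C i (ν i))
    (hD : D.card < n) (hn : (n : ℝ) + 1 ≤ U) (hm : 8 * (m : ℝ) ≤ U) {B : Finset (Fin m)}
    (hB : B.card = n) : Measure.pi ν (atyp2 D row G U p q B) ≤
      ENNReal.ofReal (U ^ 6 * (1 / m) ^ (symmDiff B D).card) := by
  have := fun i => h.prob i _ (hν i)
  have := fun i => Measure.isProbabilityMeasure_map (μ := ν i) h.mrow.aemeasurable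
  have hm1 : 1 ≤ m := by
    have := card_le_univ B
    rw [Fintype.card_fin] at this
    omega
  have hm2 : (1 : ℝ) ≤ m := by exact_mod_cast hm1
  have hU : 8 ≤ U := by linarith
  have hn0 : (0 : ℝ) ≤ n := Nat.cast_nonneg n
  set a : ℝ := (1 / (2 * m)) ^ 8 with ha
  have ha0 : 0 ≤ a := by positivity
  have ha1 : a ≤ 1 := pow_le_one₀ (by positivity) ((div_le_one (by positivity)).2 (by linarith))
  set k := (B \ D).card with hk
  refine (biUnion_le _ _ (c := n) (x := 2 ^ k * a ^ (k - 2)) (by positivity) (by rw [hB])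
    fun i hi => biUnion_le _ _ (by positivity) ?_ fun Z hZ => ?_).trans
    (ENNReal.ofReal_le_ofReal ?_)
  · rw [card_powerset]
    exact_mod_cast Nat.pow_le_pow_right two_pos card_erase_le
  · have hZ1 := mem_powerset.1 hZ
    have hF : MeasurableSet {ω : Fin m → X | ∀ l ∈ (B \ D).erase i \ Z, ω l ∈ (G l)ᶜ} := by
      simp only [Set.ofPred_forall]
      exact MeasurableSet.iInter fun l => MeasurableSet.iInter fun _ =>
        measurable_pi_apply (X := fun _ => X) l (h.mG l).compl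
    refine (pi_le_of_update ν i ((meas_rows h.mrow (meas_near _ p q B i Z)).inter hF) hF
      (b := ENNReal.ofReal (a ^ (Z.card - 1))) fun ω => ?_).trans ?_
    · rcases Set.eq_empty_or_nonempty {ρ | Function.update ω i ρ ∈
        (fun (ω : Fin m → X) i => row (ω i)) ⁻¹' {r | Near (n * (1 / U ^ 11 * U)) r p q B i Z} ∩
        {ω | ∀ l ∈ (B \ D).erase i \ Z, ω l ∈ (G l)ᶜ}} with h1 | ⟨x₀, -, h1⟩
      · rw [h1]
        simp
      have e : ∀ x, ∀ l ∈ (B \ D).erase i \ Z, Function.update ω i x l = ω l := fun x l hl =>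
        Function.update_of_ne (ne_of_mem_erase (mem_sdiff.1 hl).1) _ _
      rw [Set.eq_univ_of_forall (s := {ρ | Function.update ω i ρ ∈
        {ω | ∀ l ∈ (B \ D).erase i \ Z, ω l ∈ (G l)ᶜ}}) fun x l hl => by
          rw [e x l hl, ← e x₀ l hl]
          exact h1 l hl, measure_univ, mul_one]
      refine le_trans (measure_mono fun x hx => ?_) ((Measure.le_map_apply h.mrow.aemeasurable
        _).trans ((near_sec (ε := n * (1 / U ^ 11 * U)) (k := Z.card - 1) (by positivity) p q hB hi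
        (hZ1.trans (erase_subset_erase _ sdiff_subset)) (by omega) (h.ok i _ (hν i))
        fun i => row (ω i)).trans (ENNReal.ofReal_le_ofReal ?_)))
      · have h2 := hx.1
        rwa [Set.mem_preimage, rows_update] at h2
      · refine pow_le_pow_left₀ (by positivity) ?_ _
        calc _ ≤ U * (U * (1 / U ^ 11 * U)) := by gcongr; linarith
          _ = (1 / U) ^ 8 := by field_simp
          _ ≤ _ := by rw [ha]; gcongr; linarith
    · refine (mul_le_mul_right (pi_forall_le ν _ _ fun l _ => h.bad l _ (hν l)) _).trans ?_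
      rw [← ENNReal.ofReal_pow ha0, ← ENNReal.ofReal_mul (by positivity), ← pow_add]
      refine ENNReal.ofReal_le_ofReal (pow_le_pow_of_le_one ha0 ha1 ?_)
      have h1 := card_sdiff_add_card_eq_card hZ1
      have h2 := pred_card_le_card_erase (s := B \ D) (a := i)
      omega
  · have h1 : (symmDiff B D).card ≤ 2 * k := by
      have h2 := card_union_le (B \ D) (D \ B)
      have h3 := card_sdiff_add_card_inter B D
      have h4 := card_sdiff_add_card_inter D B
      rw [inter_comm] at h4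
      rw [symmDiff_def, sup_eq_union]
      omega
    have h2 : (1 / m : ℝ) ≤ 1 := (div_le_one (by positivity)).2 hm2
    have h3 : 2 * a ≤ (1 / m) ^ 2 := by
      calc 2 * a ≤ 2 * (1 / (2 * m)) ^ 2 := by
            rw [ha]
            gcongr 2 * ?_
            exact pow_le_pow_of_le_one (by positivity)
              ((div_le_one (by positivity)).2 (by linarith)) (by norm_num)
        _ = (1 / m) ^ 2 / 2 := by field_simp
        _ ≤ _ := half_le_self (by positivity)
    calc _ ≤ U * (2 ^ (k - 2 + 2) * a ^ (k - 2)) := by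
          gcongr
          · linarith
          · norm_num
          · omega
      _ = 4 * U * (2 * a) ^ (k - 2) := by ring
      _ ≤ U * U * ((1 / m) ^ 2) ^ (k - 2) := by gcongr; linarith
      _ = U * U * m ^ 4 * (1 / m) ^ (2 * (k - 2) + 4) := by
          rw [pow_add, pow_mul]
          field_simp
      _ ≤ U * U * U ^ 4 * (1 / m) ^ (symmDiff B D).card := by
          refine mul_le_mul (by gcongr; linarith)
            (pow_le_pow_of_le_one (by positivity) h2 (by omega)) (by positivity) (by positivity)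
      _ = _ := by ring

theorem sum_symmDiff (D : Finset (Fin m)) :
    ∑ B : Finset (Fin m), (1 / m : ℝ) ^ (symmDiff B D).card ≤ 3 := by
  refine (Equiv.sum_comp (symmDiff_left_involutive D).toPerm
    fun T : Finset (Fin m) => (1 / m : ℝ) ^ T.card).le.trans ?_
  have h := prod_one_add (f := fun _ : Fin m => (1 / m : ℝ)) univ
  simp only [prod_const, powerset_univ, card_univ, Fintype.card_fin] at h
  rw [← h]
  calc _ ≤ Real.exp (1 / m) ^ m := by gcongr; linarith [Real.add_one_le_exp (1 / m : ℝ)]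
    _ ≤ Real.exp 1 := by
      rw [← Real.exp_nat_mul, mul_one_div]
      exact Real.exp_le_exp.2 (div_self_le_one _)
    _ ≤ 3 := Real.exp_one_lt_three.le

theorem Fam.cover (h : Fam D row lab G C U) (hn : (n : ℝ) + 1 ≤ U) (hn0 : 24 ≤ n) (hp : p ⬝ᵥ p = 1)
    (hpq : q ⬝ᵥ p = 0) (hp1 : ‖p‖ ≤ 1) {S₀ B : Finset (Fin m)} {ω : Fin m → X}
    (hω : On 0 (fun i => row (ω i)) p q S₀ B) (ha : ω ∉ atyp D row G U p q B)
    (ha2 : ω ∉ atyp2 D row G U p q B) :
    ∃ j ∈ B, ∃ s < n, ∃ u, ω ∈ FP.evE row lab (G j) (1 / U ^ 11) ((s + 1 / 2) * (1 / U ^ 11 / n))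
      (1 / U ^ 11 / (4 * n)) (1 / U ^ 32) (1 / U) p q S₀ B j u := by
  classical
  obtain ⟨⟨x, hx⟩, hs⟩ := hω
  simp only [atyp, Set.mem_union, Set.mem_iUnion, Set.mem_preimage, not_or, not_exists,
    Set.mem_ofPred_eq, mem_powersetCard, mem_filter, mem_univ, true_and] at ha
  obtain ⟨h0, h1, h2⟩ := ha
  have hn1 : (24 : ℝ) ≤ n := by exact_mod_cast hn0
  have hU : 25 ≤ U := by linarith
  have hU1 : ∀ k, 1 ≤ U ^ k := fun k => one_le_pow₀ (by linarith)
  have hb : n ≤ (B.filter fun i => ω i ∈ G i).card + n / 8 := by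
    by_contra h3
    have h4 := card_filter_add_card_filter_not (s := B) fun i => ω i ∈ G i
    obtain ⟨J, hJ, hJc⟩ := exists_subset_card_eq (s := B.filter fun i => ¬ ω i ∈ G i)
      (n := n / 8 + 1) (by have := hx.2.1; omega)
    exact h0 J ⟨hJ.trans (filter_subset _ _), hJc⟩ fun i hi => (mem_filter.1 (hJ hi)).2
  obtain ⟨j, hj, s, hsn, S, hS, S', hS', hk, hiD, hP⟩ | ⟨i, hi, hN⟩ := typical (D := D) (k := (n / 4 + 2) * 2)
    (θ := 1 / U ^ 11) (U := U) hp hpq hp1 (by positivity) ((div_le_one (by positivity)).2 (hU1 _))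
    (by linarith) hx.2.1 hs (filter_subset _ _) hb (by omega) (by omega)
    (fun i hi => (h.good i _ (mem_filter.1 hi).2).1.1) fun i hi Z hZ hZc => h1 i hi Z ⟨hZ, hZc⟩
  swap
  · refine (ha2 (Set.mem_iUnion₂.2 ⟨i, hi, Set.mem_iUnion₂.2 ⟨_, mem_powerset.2
      (erase_subset_erase _ (sdiff_subset_sdiff (filter_subset _ _) le_rfl)), hN,
      fun l hl h3 => ?_⟩⟩)).elim
    obtain ⟨h4, h5⟩ := mem_sdiff.1 hl
    obtain ⟨h4, h6⟩ := mem_erase.1 h4
    obtain ⟨h6, h7⟩ := mem_sdiff.1 h6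
    exact h5 (mem_erase.2 ⟨h4, mem_sdiff.2 ⟨mem_filter.2 ⟨h6, h3⟩, h7⟩⟩)
  obtain ⟨hjB, hjG⟩ := mem_filter.1 hj
  have hη : 1 / U ^ 13 ≤ 1 / U ^ 11 / (4 * n) := by
    rw [div_div]
    gcongr
    calc _ ≤ U ^ 11 * (U * U) := by gcongr <;> linarith
      _ = _ := by ring
  set N := ⌈U ^ 18⌉₊ with hN
  have hN1 : (0 : ℝ) < N := lt_of_lt_of_le (by positivity) (Nat.le_ceil (U ^ 18))
  have hN2 : (N : ℝ) ≤ U ^ 19 := by
    have h3 := (Nat.ceil_lt_add_one (a := U ^ 18) (by positivity)).le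
    rw [pow_succ]
    nlinarith [hU1 18]
  have h3 : (n + 1) * (n * (1 / U ^ 32)) / (U ^ 2 / N) ≤ 1 / U ^ 13 := by
    calc _ ≤ U * (U * (1 / U ^ 32)) / (U ^ 2 / U ^ 19) := by gcongr; linarith
      _ = _ := by field_simp
  refine ⟨j, hjB, s, hsn, (lab (ω j), S), ⟨hjG, rfl⟩, hS, ⟨x, hx⟩, hP,
    exists_cor (ε := U ^ 2 / N) (U := U) hx.2.1 (hS'.trans inter_subset_left) hS (by positivity)
      (le_trans ?_ hη) (by positivity) (by linarith) (h3.trans hη) ?_
      (fun i hi => (h.good i _ (mem_filter.1 (mem_inter.1 (hS' hi)).2).2).1)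
      (h2 S' ⟨⟨hS'.trans (inter_subset_right.trans (filter_subset _ _)), hk⟩, hiD⟩ _ (h.good j _ hjG).2)⟩
  · gcongr
    · linarith
    · norm_num
  · calc _ ≤ U * (1 / U ^ 12) + U * (1 / U ^ 13 * U) := by
          gcongr
          · linarith
          · linarith
          · norm_num
          · linarith
      _ = 2 / U ^ 11 := by field_simp; ring
      _ ≤ U ^ 10 / U ^ 11 := by
          gcongr
          exact le_trans (by linarith) (le_self_pow₀ (by linarith) (by norm_num))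
      _ = _ := by field_simp

theorem Fam.one (h : Fam D row lab G C U) (hD : D.card < n) (hn : (n : ℝ) + 1 ≤ U) (hm : 8 * (m : ℝ) ≤ U)
    (hn0 : 24 ≤ n) (hp : p ⬝ᵥ p = 1) (hpq : q ⬝ᵥ p = 0) (hp1 : ‖p‖ ≤ 1) {ν μ : Fin m → Measure X}
    (hν : ∀ i, C i (ν i)) (hμ : ∀ i, C i (μ i)) (hs : ∀ j, Shift row lab (G j) U (ν j) (μ j))
    (S₀ : Finset (Fin m)) {B : Finset (Fin m)} (hB : B.card = n) :
    Measure.pi ν {ω | On 0 (fun i => row (ω i)) p q S₀ B} ≤ 3 * ENNReal.ofReal ((1 / m) ^ n) +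
      ENNReal.ofReal (U ^ 6 * (1 / m) ^ (symmDiff B D).card) +
      ∑ j, ENNReal.ofReal (U ^ 3) * Measure.pi (Function.update ν j (μ j))
        ((fun ω i => row (ω i)) ⁻¹'
          {r | On (1 / U ^ 32 * (1 / U ^ 11) / (2 * n) / al r ^ 2) r p q S₀ B}) := by
  have hn1 : (24 : ℝ) ≤ n := by exact_mod_cast hn0
  have hU : 25 ≤ U := by linarith
  have hU1 : ∀ k, 1 ≤ U ^ k := fun k => one_le_pow₀ (by linarith)
  refine (measure_mono (t := (atyp D row G U p q B ∪ atyp2 D row G U p q B) ∪ ⋃ j ∈ B, ⋃ s ∈ range n, ⋃ u,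
    FP.evE row lab (G j) (1 / U ^ 11) ((s + 1 / 2) * (1 / U ^ 11 / n))
      (1 / U ^ 11 / (4 * n)) (1 / U ^ 32) (1 / U) p q S₀ B j u) fun ω hω => ?_).trans
    ((measure_union_le _ _).trans (add_le_add ((measure_union_le _ _).trans (add_le_add
      (h.prob_atyp hν hn hm (by omega) hB) (h.prob_atyp2 hν hD hn hm hB)))
      ((measure_biUnion_finset_le _ _).trans ((sum_le_sum fun j hj => ?_).trans
      (sum_le_sum_of_subset (subset_univ B))))))
  · refine or_iff_not_imp_left.2 fun ha => ?_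
    obtain ⟨j, hj, s, hs, u, hu⟩ := h.cover hn hn0 hp hpq hp1 hω (fun h => ha (Or.inl h))
      fun h => ha (Or.inr h)
    exact Set.mem_iUnion₂.2 ⟨j, hj, Set.mem_iUnion₂.2 ⟨s, mem_range.2 hs,
      Set.mem_iUnion.2 ⟨u, hu⟩⟩⟩
  have hη : 1 / U ^ 32 ≤ 1 / U ^ 11 / (4 * n) := by
    rw [div_div]
    gcongr
    calc _ ≤ U ^ 11 * (U * U) * U ^ 19 := by
          refine le_trans ?_ (le_mul_of_one_le_right (by positivity) (hU1 19))
          gcongr <;> linarith
      _ = _ := by ring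
  have hη1 : 1 / U ^ 11 / (4 * n) ≤ 1 := by
    rw [div_div, div_le_one (by positivity)]
    nlinarith [hU1 11]
  set P := Measure.pi (Function.update ν j (μ j)) with hP
  set O := (fun (ω : Fin m → X) i => row (ω i)) ⁻¹'
    {r | On (1 / U ^ 32 * (1 / U ^ 11) / (2 * n) / al r ^ 2) r p q S₀ B} with hO
  refine (measure_biUnion_finset_le _ _).trans ((sum_le_card_nsmul _ _
    (ENNReal.ofReal U * (n * P O)) fun s _ => ?_).trans ?_)
  · refine (measure_iUnion_fintype_le _ _).trans ((sum_le_sum fun u _ => h.prob_op hν (hμ j) (hs j)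
      hp hpq hp1 (by positivity) ((div_le_one (by positivity)).2 (hU1 _)) (by positivity)
      hη hη1 (by positivity) hj u).trans ?_)
    rw [← mul_sum]
    exact mul_le_mul_right (h.sum_F _ (by positivity) (by positivity) hj) _
  · rw [card_range, nsmul_eq_mul, ← mul_assoc, ← mul_assoc, ← ENNReal.ofReal_natCast,
      ← ENNReal.ofReal_mul (by positivity), ← ENNReal.ofReal_mul (by positivity)]
    refine mul_le_mul_left (ENNReal.ofReal_le_ofReal ?_) _
    calc _ ≤ U * U * U := by gcongr <;> linarith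
      _ = _ := by ring

theorem Fam.bound (h : Fam D row lab G C U) (hD : D.card < n) (hn : (n : ℝ) + 1 ≤ U) (hm : 8 * (m : ℝ) ≤ U)
    (hn0 : 24 ≤ n) (hp : p ⬝ᵥ p = 1) (hpq : q ⬝ᵥ p = 0) (hp1 : ‖p‖ ≤ 1) (hq1 : ‖q‖ ≤ 1)
    {ν₀ : Fin m → Measure X} (hν₀ : ∀ i, C i (ν₀ i)) :
    ∑ B, Measure.pi ν₀ {ω | On 0 (fun i => row (ω i)) p q univ B} ≤ ENNReal.ofReal (U ^ 45) := by
  classical
  set T := ⨆ (ν : Fin m → Measure X) (_ : ∀ i, C i (ν i)) (S : Finset (Fin m)),
    ∑ B, Measure.pi ν {ω | On 0 (fun i => row (ω i)) p q S B} with hT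
  have hle : ∀ ν, (∀ i, C i (ν i)) → ∀ S,
      ∑ B, Measure.pi ν {ω | On 0 (fun i => row (ω i)) p q S B} ≤ T := fun ν hν S =>
    le_iSup₂_of_le ν hν (le_iSup (fun S => ∑ B, Measure.pi ν
      {ω | On 0 (fun i => row (ω i)) p q S B}) S)
  have hfin : T ≠ ∞ := by
    refine ne_top_of_le_ne_top (b := ∑ _B : Finset (Fin m), 1) (by simp)
      (iSup₂_le fun ν hν => iSup_le fun S => sum_le_sum fun B _ => ?_)
    have := fun i => h.prob i _ (hν i)
    exact prob_le_one
  have hn1 : (24 : ℝ) ≤ n := by exact_mod_cast hn0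
  have hU : 25 ≤ U := by linarith
  have hU1 : ∀ k, 1 ≤ U ^ k := fun k => one_le_pow₀ (by linarith)
  have hm0 : (0 : ℝ) ≤ m := Nat.cast_nonneg m
  set c : ℝ := 1 / U ^ 32 * (1 / U ^ 11) / (2 * n) with hc
  set Q := ENNReal.ofReal (123 * U ^ 12 / (1 / U ^ 26)) +
    ENNReal.ofReal (U ^ 2 * (1 / (2 * U ^ 6))) * T with hQ
  have h1 : ∀ ν, (∀ i, C i (ν i)) → ∀ S, ∑ B, Measure.pi ν ((fun ω i => row (ω i)) ⁻¹'
      {r | On (c / al r ^ 2) r p q S B}) ≤ Q := by
    intro ν hν S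
    have := fun i => h.prob i _ (hν i)
    have := fun i => Measure.isProbabilityMeasure_map (μ := ν i) h.mrow.aemeasurable
    refine (sum_le_sum fun B _ => h.rows_le hν _).trans (sum_on (fun i => h.ok i _ (hν i))
      (fun i hi => h.small i _ (hν i) hi) hD (by linarith) hn (by linarith) hq1 (by positivity) (by positivity) (by positivity)
      ((div_le_one (by positivity)).2 (hU1 _)) ?_ S fun k => le_trans (le_of_eq ?_)
      (hle ν hν (S.erase k)))
    · calc _ = 1 / U ^ 32 * (1 / U ^ 11) / (U * U) * (1 / (U * U ^ 6)) := by field_simp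
        _ ≤ _ := by rw [hc]; gcongr <;> linarith
    · refine sum_congr rfl fun B _ => ?_
      rw [← Measure.pi_map_pi fun i => h.mrow.aemeasurable,
        Measure.map_apply (meas_rows h.mrow) (meas_on continuous_const p q _ B)]
      rfl
  have h2 : T ≤ 3 + ENNReal.ofReal (U ^ 6 * 3) + ENNReal.ofReal (U ^ 4) * Q := by
    refine iSup₂_le fun ν hν => iSup_le fun S₀ => ?_
    choose μ hμ hs using fun j => h.shift j _ (hν j)
    have h3 : ∀ B, Measure.pi ν {ω | On 0 (fun i => row (ω i)) p q S₀ B} ≤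
        (if B.card = n then 3 * ENNReal.ofReal ((1 / m) ^ n) else 0) +
        ENNReal.ofReal (U ^ 6 * (1 / m) ^ (symmDiff B D).card) +
        ∑ j, ENNReal.ofReal (U ^ 3) * Measure.pi (Function.update ν j (μ j))
          ((fun ω i => row (ω i)) ⁻¹' {r | On (c / al r ^ 2) r p q S₀ B}) := by
      intro B
      split_ifs with hB
      · exact h.one hD hn hm hn0 hp hpq hp1 hν hμ hs S₀ hB
      · exact le_of_eq_of_le (measure_mono_null (fun ω ⟨⟨x, hx⟩, _⟩ => hB hx.2.1) measure_empty)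
          zero_le
    refine (sum_le_sum fun B _ => h3 B).trans ?_
    rw [sum_add_distrib, sum_add_distrib, sum_comm]
    refine add_le_add (add_le_add ?_ ?_) ((sum_le_card_nsmul _ _ (ENNReal.ofReal (U ^ 3) * Q) fun j _ => ?_).trans
      ?_)
    · rw [← sum_filter, sum_const, nsmul_eq_mul, mul_left_comm, ← ENNReal.ofReal_natCast,
        ← ENNReal.ofReal_mul (by positivity)]
      refine mul_le_of_le_one_right zero_le (ENNReal.ofReal_le_one.2 ?_)
      have h4 : (univ.filter fun B : Finset (Fin m) => B.card = n).card ≤ m ^ n := by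
        rw [univ_filter_card_eq, card_powersetCard, card_univ, Fintype.card_fin]
        exact Nat.choose_le_pow _ _
      calc _ ≤ (m : ℝ) ^ n * (1 / m) ^ n := by gcongr; exact_mod_cast h4
        _ ≤ 1 := by
          rw [← mul_pow, mul_one_div]
          exact pow_le_one₀ (by positivity) (div_self_le_one _)
    · rw [← ENNReal.ofReal_sum_of_nonneg fun _ _ => by positivity, ← mul_sum]
      exact ENNReal.ofReal_le_ofReal (mul_le_mul_of_nonneg_left (sum_symmDiff D) (by positivity))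
    · rw [← mul_sum]
      exact mul_le_mul_right (h1 _ (prob_update hν (hμ j)) S₀) _
    · rw [card_univ, Fintype.card_fin, nsmul_eq_mul, ← mul_assoc, ← ENNReal.ofReal_natCast,
        ← ENNReal.ofReal_mul hm0]
      refine mul_le_mul_left (ENNReal.ofReal_le_ofReal ?_) _
      calc _ ≤ U * U ^ 3 := by gcongr; linarith
        _ = _ := by ring
  refine (hle ν₀ hν₀ univ).trans ?_
  rw [hQ, mul_add, ← mul_assoc, ← ENNReal.ofReal_mul (by positivity),
    ← ENNReal.ofReal_mul (by positivity), ← add_assoc, ← ENNReal.ofReal_ofNat 3,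
    ← ENNReal.ofReal_add (by positivity) (by positivity),
    ← ENNReal.ofReal_add (by positivity) (by positivity), ← ENNReal.ofReal_toReal hfin,
    ← ENNReal.ofReal_mul (by positivity), ← ENNReal.ofReal_add (by positivity) (by positivity),
    ENNReal.ofReal_le_ofReal_iff (by positivity)] at h2
  rw [← ENNReal.ofReal_toReal hfin]
  refine ENNReal.ofReal_le_ofReal ?_
  have e1 : U ^ 4 * (123 * U ^ 12 / (1 / U ^ 26)) = 123 * U ^ 42 := by field_simp
  have e2 : U ^ 4 * (U ^ 2 * (1 / (2 * U ^ 6))) = 1 / 2 := by field_simp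
  rw [e1, e2] at h2
  have e3 : U ^ 6 ≤ U ^ 42 := pow_le_pow_right₀ (by linarith) (by norm_num)
  calc _ ≤ 258 * U ^ 42 := by linarith [hU1 42]
    _ ≤ U ^ 3 * U ^ 42 := by gcongr; nlinarith
    _ = _ := by ring

end Pool.Agent.Lib.MP_3b7f8d_lc.FQ
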