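import Mathlib
import Pool.Agent.Lib.MP_3b7f8d_lc.FQ.Reg

/-! The shadow on a fixed plane, when fewer than `n` rows have tiny right-hand sides. -/

namespace Pool.Agent.Lib.MP_3b7f8d_lc.FQ

open Finset MeasureTheory Pool.Agent.Lib.MP_3b7f8d_lc.FP
open scoped ENNReal

theorem plane_bound_rhs {f : ℝ → ℝ} {κ : ℝ} (hf : Den f κ) (hc : ∀ᵐ x, ContinuousAt f x) :
    ∃ C : ℝ, ∃ k : ℕ, 1 ≤ C ∧ ∀ σ : ℝ, 0 < σ → σ ≤ 1 → ∀ (m n : ℕ) (R v : ℝ)
      (A : Fin m → Fin n → ℝ) (D : Finset (Fin m)) (β : Fin m → Measure ℝ) (z c : Fin n → ℝ),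
      0 ≤ R → D.card < n →
      (∀ i l, |A i l| ≤ R) → (∀ i, Rhs (i ∉ D) (β i) R) → m + n + R + 1 / σ ≤ v →
      ∑ B, sysLaw f σ A β {r | InShadow r z c B} ≤ ENNReal.ofReal (C * v ^ k) := by
  obtain ⟨k, t, ht, ht0, ht1, ht2, ht3⟩ := hf.minorant hc (ω := (1 / 2) ^ 8) (by positivity)
  have hκ := hf.kappa
  have hκ' := den_gd.kappa
  set κ' := ∫ x, |x| * gd x
  obtain ⟨e, he⟩ := pow_unbounded_of_one_lt (2 + (κ + κ')) one_lt_two
  obtain ⟨C₀, hC₀⟩ : ∃ C₀ : ℝ, C₀ = 1024 * (6 + (κ + κ')) + (2 + k) ^ 4 := ⟨_, rfl⟩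
  have hk4 : (0 : ℝ) ≤ (2 + k) ^ 4 := by positivity
  have hC1 : 1 ≤ C₀ := by linarith
  obtain ⟨C₁, hC₁⟩ : ∃ C₁ : ℝ, C₁ = C₀ * (4 * 2 ^ (8 + 8 * e)) ^ 3 := ⟨_, rfl⟩
  have hC2 : C₀ ≤ C₁ := hC₁ ▸ le_mul_of_one_le_right (by positivity) (one_le_pow₀ (by
    linarith [one_le_pow₀ (one_le_two (α := ℝ)) (n := 8 + 8 * e)]))
  refine ⟨12 * C₁ ^ 45, (8 + 8 * e) * 3 * 45, ?_, 
    fun σ hσ hσ1 m n R v A D β z c hR hDn hA hβ hv => ?_⟩
  · linarith [one_le_pow₀ (hC1.trans hC2) (n := 45)]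
  have hσ2 : 1 ≤ 1 / σ := one_le_one_div hσ hσ1
  have hn0 : (0 : ℝ) ≤ n := Nat.cast_nonneg n
  have hm0 : (0 : ℝ) ≤ m := Nat.cast_nonneg m
  have hv1 : 1 ≤ v := by linarith
  obtain ⟨U, hU⟩ : ∃ U, U = C₁ * v ^ ((8 + 8 * e) * 3) := ⟨_, rfl⟩
  have hU0 : ∀ j ≤ 24, ∀ a, a ≤ C₀ → a * v ^ j ≤ U := fun j hj a ha => hU ▸
    mul_le_mul (ha.trans hC2) (pow_le_pow_right₀ hv1 (by omega)) (by positivity) (by linarith)
  refine (sum_shadow_le _ (T := 3 * ENNReal.ofReal (U ^ 45)) (fun p q hp hpq hq1 => ?_) z c).trans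
    (le_of_eq ?_)
  swap
  · rw [← mul_assoc, mul_assoc 12, ENNReal.ofReal_mul (p := 12) (by norm_num), hU, mul_pow,
      ← pow_mul, ENNReal.ofReal_ofNat, show (4 * 3 : ℝ≥0∞) = 12 by norm_num]
  have hp1 := norm_le_of_dot hp
  have hU1 := hU0 10 (by norm_num) (1024 * (6 + (κ + κ'))) (by linarith)
  by_cases hn : 24 ≤ n ∧ n ≤ m
  · rcases le_total ((2 * m : ℝ) ^ 8) (2 ^ n) with hL | hL
    · exact large_regime hf den_gd ht ht0 ht1 ht2 ht3 hσ hσ1 hR hA hβ hDn hv hU1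
        (hU0 4 (by norm_num) _ (by linarith)) hn.1 hn.2 hp hpq hp1 hq1 hL
    · refine (small_regime (κ := κ + κ') { hf with mom_le := by linarith [hf.mom_le] }
        { den_gd with mom_le := by linarith } hσ hσ1 hR hA hβ hDn hv hU1 hn.1 hn.2 hp hpq hp1 hq1
        ?_).trans (le_mul_of_one_le_left zero_le (by norm_num))
      calc _ ≤ (4 * (2 * v) ^ 8 * ((2 * v) ^ 8) ^ e) ^ 3 := by
            gcongr
            · linarith
            calc _ ≤ ((2 : ℝ) ^ e) ^ n := by gcongr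
              _ = (2 ^ n) ^ e := by rw [← pow_mul, ← pow_mul, mul_comm]
              _ ≤ _ := by gcongr; exact hL.trans (by gcongr; linarith)
        _ = 1 * (4 * 2 ^ (8 + 8 * e)) ^ 3 * v ^ ((8 + 8 * e) * 3) := by
            rw [one_mul, pow_mul v, ← mul_pow, mul_assoc, mul_assoc, ← mul_pow, ← pow_mul,
              ← pow_add]
        _ ≤ _ := by rw [hU, hC₁]; gcongr
  · have := fun i => (hβ i).prob
    have := fun i l => (hf.nice hσ hσ1 (hA i l)).prob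
    calc _ ≤ ∑ B : Finset (Fin m), if B.card = n then 1 else 0 := sum_le_sum fun B _ => by
          split_ifs with hB
          · unfold sysLaw
            exact prob_le_one
          · exact le_of_eq (measure_mono_null (fun r ⟨⟨x, hx⟩, _⟩ => hB hx.2.1) measure_empty)
      _ = ENNReal.ofReal (m.choose n) := by
          rw [← sum_filter, sum_const, nsmul_one, univ_filter_card_eq, card_powersetCard,
            card_univ, Fintype.card_fin, ENNReal.ofReal_natCast]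
      _ ≤ ENNReal.ofReal (U ^ 45) := by
          have h1 : v ^ 24 ≤ U := by simpa using hU0 24 le_rfl 1 hC1
          have h2 := one_le_pow₀ hv1 (n := 24)
          refine ENNReal.ofReal_le_ofReal (le_trans ?_ (h1.trans (le_self_pow₀ (by linarith)
            (by norm_num))))
          rcases not_and_or.1 hn with h3 | h3
          · calc _ ≤ (m : ℝ) ^ n := by exact_mod_cast Nat.choose_le_pow m n
              _ ≤ v ^ n := by gcongr; linarith
              _ ≤ _ := pow_le_pow_right₀ hv1 (by omega)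
          · rw [Nat.choose_eq_zero_of_lt (by omega)]
            simp only [Nat.cast_zero]
            positivity
      _ ≤ _ := le_mul_of_one_le_left zero_le (by norm_num)

theorem rhs_dirac {s : Prop} {b : ℝ} (h0 : b ≠ 0) (h1 : |b| ≤ 1) (hs : s → b = 1) :
    Rhs s (Measure.dirac b) 1 := by
  have hm : ∀ ε : ℝ, MeasurableSet {x : ℝ | |x| ≤ ε} := fun ε =>
    (isClosed_le (by fun_prop) (by fun_prop)).measurableSet
  refine ⟨inferInstance, ?_, fun h ε _ => ?_, ?_⟩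
  · rw [Measure.dirac_apply' _ (hm 0), Set.indicator_of_notMem]
    simpa using h0
  · rw [Measure.dirac_apply' _ (hm ε), hs h]
    by_cases h2 : (1 : ℝ) ≤ ε
    · refine le_trans (Set.indicator_le_self _ _ _) ?_
      simpa using h2
    · rw [Set.indicator_of_notMem (by simpa using h2)]
      exact zero_le
  · rw [lintegral_dirac]
    exact ENNReal.ofReal_le_ofReal h1

theorem plane_bound {f : ℝ → ℝ} {κ : ℝ} (hf : Den f κ) (hc : ∀ᵐ x, ContinuousAt f x) :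
    ∃ C : ℝ, ∃ k : ℕ, 1 ≤ C ∧ ∀ σ : ℝ, 0 < σ → σ ≤ 1 → ∀ (m n : ℕ) (v : ℝ)
      (A : Fin m → Fin n → ℝ) (D : Finset (Fin m)) (b : Fin m → ℝ) (z c : Fin n → ℝ),
      D.card < n → (∀ i l, |A i l| ≤ 1) → (∀ i, b i ≠ 0 ∧ |b i| ≤ 1) → (∀ i ∉ D, b i = 1) →
      m + n + 1 + 1 / σ ≤ v →
      ∑ B, sysLaw f σ A (fun i => Measure.dirac (b i)) {r | InShadow r z c B} ≤
        ENNReal.ofReal (C * v ^ k) := by
  obtain ⟨C, k, hC, h⟩ := plane_bound_rhs hf hc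
  exact ⟨C, k, hC, fun σ hσ hσ1 m n v A D b z c hD hA hb hb1 hv =>
    h σ hσ hσ1 m n 1 v A D _ z c zero_le_one hD hA
      (fun i => rhs_dirac (hb i).1 (hb i).2 (hb1 i)) hv⟩

end Pool.Agent.Lib.MP_3b7f8d_lc.FQ
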